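import Pool.Agent.Lib.MP_b5021c_nt.IfaceB

/-!
# Board b5, row C1A: pseudo-division
-/

set_option autoImplicit false

namespace Pool.Agent.B5.H43

open Polynomial

section
variable {A : Type} [CommRing A]

/-- Pseudo-division from the lowest coefficient. -/
theorem pseudo (P H : A[X]) (N : ℕ) :
    ∃ Q R : A[X], C (P.coeff 0 ^ N) * H = P * Q + X ^ N * R ∧ Q.degree < (N : WithBot ℕ) := by
  induction N with
  | zero =>
    refine ⟨0, H, by simp, ?_⟩
    rw [degree_zero]
    exact WithBot.bot_lt_coe _
  | succ N ih =>
    obtain ⟨Q, R, h, hQ⟩ := ih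
    have h1 : X ∣ C (P.coeff 0) * R - C (R.coeff 0) * P := by
      rw [X_dvd_iff, coeff_sub, coeff_C_mul, coeff_C_mul]
      ring
    obtain ⟨R', hR'⟩ := h1
    refine ⟨C (P.coeff 0) * Q + C (R.coeff 0) * X ^ N, R', ?_, ?_⟩
    · have h2 : C (P.coeff 0) * R = C (R.coeff 0) * P + X * R' := by
        rw [← hR']; ring
      calc C (P.coeff 0 ^ (N + 1)) * H = C (P.coeff 0) * (C (P.coeff 0 ^ N) * H) := by
            rw [pow_succ, C_mul]; ring
        _ = C (P.coeff 0) * (P * Q) + X ^ N * (C (P.coeff 0) * R) := by rw [h]; ring
        _ = _ := by rw [h2]; ring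
    · rw [degree_lt_iff_coeff_zero]
      intro m hm
      rw [coeff_add, coeff_C_mul, coeff_C_mul, coeff_X_pow,
        (degree_lt_iff_coeff_zero _ _).1 hQ m (by omega), if_neg (by omega)]
      ring

end

section
variable {O : Type} [CommRing O] {L : Type} [AddCommGroup L]

/-- The graded polynomial of an element of the group algebra. -/
noncomputable def pol (lam : L →+ ℤ) (G : AO O L) : Polynomial (AO O L) :=
  ∑ a ∈ G.coeff.support, Polynomial.monomial (lam a).toNat (AddMonoidAlgebra.single a (G.coeff a))

theorem pol_eval_one (lam : L →+ ℤ) (G : AO O L) : (pol lam G).eval 1 = G := by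
  classical
  rw [pol, eval_finsetSum]
  simp only [eval_monomial, one_pow, mul_one]
  exact AddMonoidAlgebra.sum_coeff_single G

theorem pol_coeff_zero (lam : L →+ ℤ) (G : AO O L) (h : Pos lam G) :
    (pol lam G).coeff 0 = cst (G.coeff 0) := by
  classical
  rw [pol, finsetSum_coeff]
  rw [Finset.sum_eq_single (0 : L)]
  · rw [coeff_monomial, map_zero, Int.toNat_zero, if_pos rfl]
    rfl
  · intro a ha ha0
    rw [coeff_monomial, if_neg]
    have := h a ha ha0
    omega
  · intro h0
    rw [coeff_monomial, map_zero, Int.toNat_zero, if_pos rfl, Finsupp.notMem_support_iff.1 h0]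
    simp

variable [Coef O]

theorem ev_single (z : Circle) (u : AddChar L Circle) (a : L) (q : RO O) :
    ev z u (AddMonoidAlgebra.single a q : AO O L) = evR z q * (u a : ℂ) := by
  simp [ev, evC, spec]

theorem pol_map (lam : L →+ ℤ) (G : AO O L) (z : Circle) (u : AddChar L Circle) :
    (pol lam G).map (ev z u) = sl u lam (spec z G) := by
  classical
  rw [pol, Polynomial.map_sum, sl, Finsupp.sum_of_support_subset (s := G.coeff.support)]
  · refine Finset.sum_congr rfl fun a _ => ?_
    rw [map_monomial, ev_single, spec_coeff]
  · intro a ha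
    rw [Finsupp.mem_support_iff, spec_coeff] at ha
    rw [Finsupp.mem_support_iff]
    intro h; apply ha; rw [h, map_zero]
  · intro a _
    rw [zero_mul, map_zero]

end

theorem c1a (hD : DensS) : C1aS := by
  intro O _ _ _ _ L _ _ _ G H lam hG0 hG hH hfin
  classical
  set N : ℕ := (pol lam H).natDegree + 1 with hN
  obtain ⟨Q, R, hQR, hQ⟩ := pseudo (pol lam G) (pol lam H) N
  have hR : R = 0 := by
    ext1 i
    rw [coeff_zero]
    have h1 : R.coeff i * cst (G.coeff 0) = 0 := by
      refine (hD O L).2 _ (hfin.subset ?_)
      intro z hz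
      by_contra hcon
      have hdiv : ∀ u : AddChar L Circle,
          sl u lam (spec z G) ∣ sl u lam (spec z H) := by
        by_contra h; exact hcon h
      apply hz
      intro u
      rw [map_mul]
      by_cases hg : evR z (G.coeff 0) = 0
      · rw [cst, ev_single, hg]; ring
      · have hg' : ev z u (cst (G.coeff 0) : AO O L) ≠ 0 := by
          rw [cst, ev_single]
          exact mul_ne_zero hg (Circle.coe_ne_zero _)
        have h2 := congrArg (Polynomial.map (ev z u)) hQR
        rw [Polynomial.map_mul, Polynomial.map_add, Polynomial.map_mul, Polynomial.map_mul,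
          Polynomial.map_pow, map_X, map_C, map_pow, pol_coeff_zero lam G hG] at h2
        obtain ⟨K, hK⟩ := hdiv u
        rw [← pol_map, ← pol_map] at hK
        set P' := (pol lam G).map (ev z u) with hP'
        have hP0 : P'.coeff 0 = ev z u (cst (G.coeff 0) : AO O L) := by
          rw [hP', coeff_map, pol_coeff_zero lam G hG]
        have h3 : P' * (C (ev z u (cst (G.coeff 0) : AO O L) ^ N) * K - Q.map (ev z u)) =
            X ^ N * R.map (ev z u) := by
          have : X ^ N * R.map (ev z u) =
              C (ev z u (cst (G.coeff 0) : AO O L) ^ N) * (pol lam H).map (ev z u) -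
                P' * Q.map (ev z u) := by
            rw [h2]; ring
          rw [this, hK]; ring
        have hcop : IsCoprime (X ^ N : ℂ[X]) P' := by
          apply IsCoprime.pow_left
          rw [Polynomial.prime_X.coprime_iff_not_dvd, X_dvd_iff, hP0]
          exact hg'
        have h4 : X ^ N ∣ C (ev z u (cst (G.coeff 0) : AO O L) ^ N) * K - Q.map (ev z u) :=
          hcop.dvd_of_dvd_mul_left (Dvd.intro _ h3.symm)
        have hP'0 : P' ≠ 0 := by
          intro h
          rw [h, coeff_zero] at hP0
          exact hg' hP0.symm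
        have hKdeg : K.degree < (N : WithBot ℕ) := by
          by_cases hK0 : K = 0
          · rw [hK0, degree_zero]; exact WithBot.bot_lt_coe _
          · rw [degree_eq_natDegree hK0]
            have h5 : ((pol lam H).map (ev z u)).natDegree = P'.natDegree + K.natDegree := by
              rw [hK, natDegree_mul hP'0 hK0]
            have h6 : ((pol lam H).map (ev z u)).natDegree ≤ (pol lam H).natDegree :=
              natDegree_map_le
            exact_mod_cast (by omega : K.natDegree < N)
        have h7 : (C (ev z u (cst (G.coeff 0) : AO O L) ^ N) * K - Q.map (ev z u)).degree <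
            (N : WithBot ℕ) := by
          refine lt_of_le_of_lt (degree_sub_le _ _) (max_lt ?_ ?_)
          · rw [degree_lt_iff_coeff_zero] at hKdeg ⊢
            intro m hm
            rw [coeff_C_mul, hKdeg m hm, mul_zero]
          · exact lt_of_le_of_lt degree_map_le hQ
        have h8 : C (ev z u (cst (G.coeff 0) : AO O L) ^ N) * K - Q.map (ev z u) = 0 := by
          refine eq_zero_of_dvd_of_degree_lt h4 ?_
          rw [degree_X_pow]; exact h7
        rw [h8, mul_zero] at h3
        have h9 : R.map (ev z u) = 0 := by
          rcases mul_eq_zero.1 h3.symm with h | h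
          · exact absurd h (pow_ne_zero _ X_ne_zero)
          · exact h
        have h10 := congrArg (fun p => coeff p i) h9
        simp only [coeff_map, coeff_zero] at h10
        rw [h10, zero_mul]
    rcases mul_eq_zero.1 h1 with h | h
    · exact h
    · exfalso
      rw [cst, AddMonoidAlgebra.single_eq_zero] at h
      exact hG0 h
  refine ⟨N, Q.eval 1, ?_⟩
  have h1 := congrArg (Polynomial.eval 1) hQR
  rw [hR, mul_zero, add_zero, eval_mul, eval_mul, eval_C, pol_eval_one, pol_eval_one,
    pol_coeff_zero lam G hG] at h1
  rw [← h1]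
  congr 1
  have : ∀ n : ℕ, (cst (G.coeff 0) : AO O L) ^ n = cst (G.coeff 0 ^ n) := by
    intro n
    rw [cst, AddMonoidAlgebra.single_pow, smul_zero]
    rfl
  exact (this N).symm

end Pool.Agent.B5.H43
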